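import Mathlib
import Pool.Agent.Lib.MP_50ef00_gt.Pos

/-!
# MP_50ef00_gt: module P8 (the two discs)
-/

namespace Pool.Agent.Lib.MP_50ef00_gt.H75

open Pool.Agent.Lib.MP_50ef00_gt

/-! ### complexes -/

theorem mem_simplex {s t : Finset ℕ} : t ∈ simplex s ↔ t ⊆ s ∧ t.Nonempty := by
  simp [simplex]

theorem isComplex_simplex (s : Finset ℕ) : IsComplex (simplex s) := by
  intro t ht
  rw [mem_simplex] at ht
  exact ⟨ht.2, fun u hu hne => mem_simplex.2 ⟨hu.trans ht.1, hne⟩⟩

theorem isComplex_union {K L : Finset (Finset ℕ)} (hK : IsComplex K) (hL : IsComplex L) :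
    IsComplex (K ∪ L) := by
  intro t ht
  rcases Finset.mem_union.1 ht with h | h
  · exact ⟨(hK t h).1, fun u hu hne => Finset.mem_union_left _ ((hK t h).2 u hu hne)⟩
  · exact ⟨(hL t h).1, fun u hu hne => Finset.mem_union_right _ ((hL t h).2 u hu hne)⟩

theorem isComplex_biUnion {s : Finset ℕ} {F : ℕ → Finset (Finset ℕ)}
    (h : ∀ i ∈ s, IsComplex (F i)) : IsComplex (s.biUnion F) := by
  intro t ht
  obtain ⟨i, hi, hti⟩ := Finset.mem_biUnion.1 ht
  exact ⟨(h i hi t hti).1, fun u hu hne => Finset.mem_biUnion.2 ⟨i, hi, (h i hi t hti).2 u hu hne⟩⟩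

theorem isComplex_graph : IsComplex graph :=
  isComplex_biUnion fun _ _ => isComplex_union (isComplex_union (isComplex_simplex _)
    (isComplex_simplex _)) (isComplex_simplex _)

theorem isComplex_disc (n : ℕ) (p : ℕ → ℕ) (N : ℕ) : IsComplex (disc n p N) :=
  isComplex_biUnion fun _ _ => isComplex_union (isComplex_union (isComplex_simplex _)
    (isComplex_simplex _)) (isComplex_simplex _)

theorem isComplex_attach {K : Finset (Finset ℕ)} (hK : IsComplex K) (w : Word) (N : ℕ) :
    IsComplex (attach K w N) := isComplex_union hK (isComplex_disc _ _ _)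

theorem isComplex_Xcx : IsComplex Xcx :=
  isComplex_attach (isComplex_attach (isComplex_attach isComplex_graph _ _) _ _) _ _

theorem isComplex_Kk (k : ℕ) : IsComplex (Kk k) := isComplex_attach isComplex_Xcx _ _

/-! ### dimension -/

/-- dimension at most two -/
def Dim2 (K : Finset (Finset ℕ)) : Prop := ∀ s ∈ K, s.card ≤ 3

theorem dim2_simplex3 (a b c : ℕ) : Dim2 (simplex {a, b, c}) := by
  intro s hs
  exact (Finset.card_le_card (mem_simplex.1 hs).1).trans Finset.card_le_three

theorem dim2_simplex2 (a b : ℕ) : Dim2 (simplex {a, b}) := by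
  intro s hs
  exact ((Finset.card_le_card (mem_simplex.1 hs).1).trans Finset.card_le_two).trans (by norm_num)

theorem dim2_union {K L : Finset (Finset ℕ)} (hK : Dim2 K) (hL : Dim2 L) : Dim2 (K ∪ L) := by
  intro s hs
  rcases Finset.mem_union.1 hs with h | h
  · exact hK s h
  · exact hL s h

theorem dim2_biUnion {s : Finset ℕ} {F : ℕ → Finset (Finset ℕ)}
    (h : ∀ i ∈ s, Dim2 (F i)) : Dim2 (s.biUnion F) := by
  intro t ht
  obtain ⟨i, hi, hti⟩ := Finset.mem_biUnion.1 ht
  exact h i hi t hti

theorem dim2_graph : Dim2 graph :=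
  dim2_biUnion fun _ _ => dim2_union (dim2_union (dim2_simplex2 _ _) (dim2_simplex2 _ _))
    (dim2_simplex2 _ _)

theorem dim2_disc (n : ℕ) (p : ℕ → ℕ) (N : ℕ) : Dim2 (disc n p N) :=
  dim2_biUnion fun _ _ => dim2_union (dim2_union (dim2_simplex3 _ _ _) (dim2_simplex3 _ _ _))
    (dim2_simplex3 _ _ _)

theorem dim2_Xcx : Dim2 Xcx :=
  dim2_union (dim2_union (dim2_union dim2_graph (dim2_disc _ _ _)) (dim2_disc _ _ _))
    (dim2_disc _ _ _)

theorem isComplex_erase {K : Finset (Finset ℕ)} (hK : IsComplex K) (hd : Dim2 K) {τ : Finset ℕ}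
    (hτ : τ.card = 3) : IsComplex (K.erase τ) := by
  intro s hs
  obtain ⟨h1, h2⟩ := Finset.mem_erase.1 hs
  refine ⟨(hK s h2).1, fun t ht hne => Finset.mem_erase.2 ⟨?_, (hK s h2).2 t ht hne⟩⟩
  rintro rfl
  apply h1
  symm
  apply Finset.eq_of_subset_of_card_le ht
  have := hd s h2
  omega

/-! ### vertex bounds -/

/-- all vertices are less than `N` -/
def Bd (K : Finset (Finset ℕ)) (N : ℕ) : Prop := ∀ s ∈ K, ∀ v ∈ s, v < N

theorem Bd.mono {K : Finset (Finset ℕ)} {N N' : ℕ} (h : Bd K N) (hN : N ≤ N') : Bd K N' :=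
  fun s hs v hv => lt_of_lt_of_le (h s hs v hv) hN

theorem bd_simplex {s : Finset ℕ} {N : ℕ} (h : ∀ v ∈ s, v < N) : Bd (simplex s) N :=
  fun _ ht v hv => h v ((mem_simplex.1 ht).1 hv)

theorem bd_union {K L : Finset (Finset ℕ)} {N : ℕ} (hK : Bd K N) (hL : Bd L N) :
    Bd (K ∪ L) N := by
  intro s hs
  rcases Finset.mem_union.1 hs with h | h
  · exact hK s h
  · exact hL s h

theorem bd_biUnion {s : Finset ℕ} {F : ℕ → Finset (Finset ℕ)} {N : ℕ}
    (h : ∀ i ∈ s, Bd (F i) N) : Bd (s.biUnion F) N := by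
  intro t ht
  obtain ⟨i, hi, hti⟩ := Finset.mem_biUnion.1 ht
  exact h i hi t hti

theorem bd_graph : Bd graph 9 := by
  apply bd_biUnion
  intro g hg
  have := Finset.mem_range.1 hg
  refine bd_union (bd_union (bd_simplex ?_) (bd_simplex ?_)) (bd_simplex ?_) <;>
  · intro v hv
    simp only [Finset.mem_insert, Finset.mem_singleton] at hv
    omega

theorem wpath_le (w : Word) (i : ℕ) : wpath w i ≤ 8 := by
  unfold wpath
  split_ifs
  · omega
  · dsimp only
    have := (w.getD (i / 3) (0, true)).1.isLt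
    split_ifs <;> omega

theorem ring_le {n N i : ℕ} (hi : i ≤ n) : ring n N i < N + n + 1 := by
  unfold ring
  split_ifs <;> omega

theorem bd_disc {n N : ℕ} {p : ℕ → ℕ} (hp : ∀ i, p i < N + n + 1) :
    Bd (disc n p N) (N + n + 1) := by
  apply bd_biUnion
  intro i hi
  have h := Finset.mem_range.1 hi
  have h1 := ring_le (N := N) (le_of_lt h)
  have h2 := ring_le (N := N) (Nat.succ_le_of_lt h)
  have h3 := hp i
  have h4 := hp (i + 1)
  refine bd_union (bd_union (bd_simplex ?_) (bd_simplex ?_)) (bd_simplex ?_) <;>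
  · intro v hv
    simp only [Finset.mem_insert, Finset.mem_singleton] at hv
    rcases hv with rfl | rfl | rfl <;> first | assumption | omega

theorem bd_attach {K : Finset (Finset ℕ)} {w : Word} {N N' : ℕ} (hK : Bd K N')
    (hN : 8 ≤ N) (h : N + 3 * w.length + 1 ≤ N') : Bd (attach K w N) N' := by
  refine bd_union hK ((bd_disc fun i => ?_).mono h)
  have := wpath_le w i
  omega

theorem bd_Xcx : Bd Xcx 1000 := by
  refine bd_attach (bd_attach (bd_attach (bd_graph.mono (by norm_num)) ?_ ?_) ?_ ?_) ?_ ?_ <;>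
    norm_num [R1, R2, R3]

theorem bd_Kk (k : ℕ) : Bd (Kk k) (N2 k) := by
  refine bd_attach (bd_Xcx.mono ?_) (by norm_num) ?_
  · unfold N2; omega
  · unfold N2 nk; omega

theorem graph_sub_Xcx : graph ⊆ Xcx := by
  unfold Xcx attach
  exact (Finset.subset_union_left.trans Finset.subset_union_left).trans Finset.subset_union_left

theorem graph_sub_Kk (k : ℕ) : graph ⊆ Kk k := graph_sub_Xcx.trans Finset.subset_union_left

theorem vk_length (k : ℕ) : 4 ≤ (vk k).length := by
  induction k with
  | zero => simp [vk]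
  | succ k ih => simp [vk]; omega

theorem vk_ne (k : ℕ) : vk k ≠ [] := by
  intro h
  have := vk_length k
  rw [h] at this
  simp at this

theorem nk_ge (k : ℕ) : 12 ≤ nk k := by
  have := vk_length k
  unfold nk; omega

/-! ### the last triangles -/

theorem card_tau {n N : ℕ} (hn : 2 ≤ n) (hN : 1 ≤ N) : (tau n N).card = 3 := by
  unfold tau
  rw [Finset.card_eq_three]
  exact ⟨N, N + (n - 1), 0, by omega, by omega, by omega, rfl⟩

theorem tau_ne (k : ℕ) : tau (nk k) 1000 ≠ tau (nk 0) (N2 k) := by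
  intro h
  have h1 : 1000 ∈ tau (nk k) 1000 := by simp [tau]
  rw [h] at h1
  simp only [tau, N2, Finset.mem_insert, Finset.mem_singleton] at h1
  omega

theorem Both_eq (k : ℕ) : Both k = Kk k ∪ disc (nk 0) (wpath (vk 0)) (N2 k) := rfl

theorem isComplex_Both (k : ℕ) : IsComplex (Both k) :=
  isComplex_union (isComplex_Kk k) (isComplex_disc _ _ _)

theorem dim2_Both (k : ℕ) : Dim2 (Both k) :=
  dim2_union (dim2_union dim2_Xcx (dim2_disc _ _ _)) (dim2_disc _ _ _)

theorem good1 (h5 : NC5Statement) (k : ℕ) : GoodPath Xcx (nk k) 1000 (wpath (vk k)) :=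
  h5 Xcx (vk k) 1000 isComplex_Xcx graph_sub_Xcx (vk_ne k) bd_Xcx

theorem good2 (h5 : NC5Statement) (k l : ℕ) : GoodPath (Kk k) (nk l) (N2 k) (wpath (vk l)) :=
  h5 (Kk k) (vk l) (N2 k) (isComplex_Kk k) (graph_sub_Kk k) (vk_ne l) (bd_Kk k)

theorem card1 (k : ℕ) : (tau (nk k) 1000).card = 3 := card_tau (by have := nk_ge k; omega)
  (by norm_num)

theorem card2 (k l : ℕ) : (tau (nk l) (N2 k)).card = 3 := card_tau (by have := nk_ge l; omega)
  (by unfold N2; omega)

theorem tau1_mem (h0 : NC0Statement) (h5 : NC5Statement) (k : ℕ) :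
    tau (nk k) 1000 ∈ Both k :=
  Finset.mem_union_left _ (h0 Xcx (nk k) 1000 (wpath (vk k)) (good1 h5 k)).2.1

theorem tau2_mem (h0 : NC0Statement) (h5 : NC5Statement) (k : ℕ) :
    tau (nk 0) (N2 k) ∈ Both k :=
  (h0 (Kk k) (nk 0) (N2 k) (wpath (vk 0)) (good2 h5 k 0)).2.1

theorem face_mem {k : ℕ} {τ s : Finset ℕ} (hτ : τ ∈ Both k) (hc : τ.card = 3) (hs : s ⊆ τ)
    (hne : s.Nonempty) (hst : s ≠ τ) : s ∈ Zk k := by
  have h1 : s ∈ Both k := (isComplex_Both k τ hτ).2 s hs hne
  have h2 : s.card < 3 := by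
    rw [← hc]
    exact Finset.card_lt_card (Finset.ssubset_iff_subset_ne.2 ⟨hs, hst⟩)
  refine Finset.mem_erase.2 ⟨?_, Finset.mem_erase.2 ⟨?_, h1⟩⟩
  · rintro rfl
    rw [card2 k 0] at h2
    omega
  · rintro rfl
    rw [card1 k] at h2
    omega

/-- P8a -/
theorem union (h0 : NC0Statement) (h5 : NC5Statement) : UnionStatement := by
  intro k
  refine ⟨isComplex_Both k, ?_, tau1_mem h0 h5 k, tau2_mem h0 h5 k, tau_ne k, ?_, ?_⟩
  · refine isComplex_erase (isComplex_erase (isComplex_Both k) (dim2_Both k) (card1 k)) ?_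
      (card2 k 0)
    intro s hs
    exact dim2_Both k s (Finset.mem_of_mem_erase hs)
  · intro s hs hne hst
    exact face_mem (tau1_mem h0 h5 k) (card1 k) hs hne hst
  · intro s hs hne hst
    exact face_mem (tau2_mem h0 h5 k) (card2 k 0) hs hne hst

/-! ### homotopy equivalences -/

theorem he_refl (K : Finset (Finset ℕ)) : HE K K := ⟨ContinuousMap.HomotopyEquiv.refl _⟩

theorem he_trans {K L M : Finset (Finset ℕ)} (h1 : HE K L) (h2 : HE L M) : HE K M := by
  obtain ⟨e1⟩ := h1
  obtain ⟨e2⟩ := h2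
  exact ⟨e1.trans e2⟩

theorem he_collapses (hC : CollapseHEStatement) {K L : Finset (Finset ℕ)}
    (h : Relation.ReflTransGen CollapseStep K L) : HE K L := by
  induction h with
  | refl => exact he_refl _
  | tail _ h ih => exact he_trans ih (hC _ _ h.1 h.2.1 h.2.2)

theorem insert_tau1 (h0 : NC0Statement) (h5 : NC5Statement) (k : ℕ) :
    insert (tau (nk k) 1000) (Zk k) = (Both k).erase (tau (nk 0) (N2 k)) := by
  unfold Zk
  rw [Finset.erase_right_comm, Finset.insert_erase]
  exact Finset.mem_erase.2 ⟨tau_ne k, tau1_mem h0 h5 k⟩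

theorem insert_tau2 (h0 : NC0Statement) (h5 : NC5Statement) (k : ℕ) :
    insert (tau (nk 0) (N2 k)) (Zk k) = (Both k).erase (tau (nk k) 1000) := by
  unfold Zk
  rw [Finset.insert_erase]
  exact Finset.mem_erase.2 ⟨(tau_ne k).symm, tau2_mem h0 h5 k⟩

/-- P8b -/
theorem unionLeft (h0 : NC0Statement) (h5 : NC5Statement) (hC : CollapseHEStatement) :
    UnionLeftStatement := by
  intro k
  rw [insert_tau1 h0 h5 k]
  exact he_collapses hC (h0 (Kk k) (nk 0) (N2 k) (wpath (vk 0)) (good2 h5 k 0)).2.2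

/-! ### renaming -/

theorem image_simplex (σ : Equiv.Perm ℕ) (s : Finset ℕ) :
    (simplex s).image (Finset.image σ) = simplex (s.image σ) := by
  ext t
  rw [Finset.mem_image, mem_simplex]
  constructor
  · rintro ⟨u, hu, rfl⟩
    rw [mem_simplex] at hu
    exact ⟨Finset.image_subset_image hu.1, hu.2.image _⟩
  · rintro ⟨h1, h2⟩
    refine ⟨t.image σ.symm, mem_simplex.2 ⟨?_, h2.image _⟩, ?_⟩
    · have := Finset.image_subset_image (f := σ.symm) h1
      rw [Finset.image_image] at this
      simpa using this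
    · rw [Finset.image_image]
      simp

theorem image_ring {σ : Equiv.Perm ℕ} {n N N' : ℕ} (h0 : σ 0 = 0)
    (hσ : ∀ i < n, σ (N + i) = N' + i) {i : ℕ} (hi : i ≤ n) :
    σ (ring n N i) = ring n N' i := by
  unfold ring
  split_ifs with h
  · exact h0
  · exact hσ i (by omega)

theorem image_disc {σ : Equiv.Perm ℕ} {n N N' : ℕ} {p : ℕ → ℕ} (h0 : σ 0 = 0)
    (hσ : ∀ i < n, σ (N + i) = N' + i) (hp : ∀ i, σ (p i) = p i) :
    (disc n p N).image (Finset.image σ) = disc n p N' := by
  unfold disc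
  rw [Finset.biUnion_image]
  refine Finset.biUnion_congr rfl fun i hi => ?_
  have h := Finset.mem_range.1 hi
  have hN : σ N = N' := by
    have := hσ 0 (by omega)
    simpa using this
  simp only [Finset.image_union, image_simplex, Finset.image_insert, Finset.image_singleton,
    image_ring h0 hσ (le_of_lt h), image_ring h0 hσ (Nat.succ_le_of_lt h), hp, hN]

theorem image_fix {σ : Equiv.Perm ℕ} {K : Finset (Finset ℕ)}
    (h : ∀ s ∈ K, ∀ v ∈ s, σ v = v) : K.image (Finset.image σ) = K := by
  have : ∀ s ∈ K, Finset.image σ s = s := by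
    intro s hs
    have h1 : Finset.image σ s = Finset.image id s := Finset.image_congr fun v hv => h s hs v hv
    rw [h1, Finset.image_id]
  have h2 : K.image (Finset.image σ) = K.image id := Finset.image_congr fun s hs => this s hs
  rw [h2, Finset.image_id]

/-- the permutation exchanging two blocks of labels of lengths `a`, `b` from `1000` on -/
def blk (a b : ℕ) : Equiv.Perm ℕ where
  toFun i := if i < 1000 then i else if i < 1000 + a then i + b
    else if i < 1000 + a + b then i - a else i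
  invFun i := if i < 1000 then i else if i < 1000 + b then i + a
    else if i < 1000 + b + a then i - b else i
  left_inv i := by
    dsimp only
    split_ifs <;> omega
  right_inv i := by
    dsimp only
    split_ifs <;> omega

theorem blk_lt {a b i : ℕ} (h : i < 1000) : blk a b i = i := by
  change (if i < 1000 then i else _) = i
  rw [if_pos h]

theorem blk_first {a b i : ℕ} (h : i < a) : blk a b (1000 + i) = 1000 + b + i := by
  change (if 1000 + i < 1000 then 1000 + i else if 1000 + i < 1000 + a then 1000 + i + b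
    else if 1000 + i < 1000 + a + b then 1000 + i - a else 1000 + i) = _
  rw [if_neg (by omega), if_pos (by omega)]
  omega

theorem blk_second {a b i : ℕ} (h : i < b) : blk a b (1000 + a + i) = 1000 + i := by
  change (if 1000 + a + i < 1000 then 1000 + a + i else if 1000 + a + i < 1000 + a
    then 1000 + a + i + b
    else if 1000 + a + i < 1000 + a + b then 1000 + a + i - a else 1000 + a + i) = _
  rw [if_neg (by omega), if_neg (by omega), if_pos (by omega)]
  omega

/-- P8c -/
theorem unionRight (h0 : NC0Statement) (h5 : NC5Statement) (hC : CollapseHEStatement)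
    (hR : RelabelHEStatement) : UnionRightStatement := by
  intro k
  rw [insert_tau2 h0 h5 k]
  let σ := blk (nk k + 1) (nk 0 + 1)
  have h00 : σ 0 = 0 := blk_lt (by norm_num)
  have e1 : Xcx.image (Finset.image σ) = Xcx :=
    image_fix fun s hs v hv => blk_lt (bd_Xcx s hs v hv)
  have hw : ∀ w : Word, ∀ i, σ (wpath w i) = wpath w i := fun w i =>
    blk_lt (by have := wpath_le w i; omega)
  have f1 : ∀ i < nk k, σ (1000 + i) = N2 0 + i := by
    intro i hi
    have := blk_first (a := nk k + 1) (b := nk 0 + 1) (i := i) (by omega)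
    rw [show N2 0 = 1000 + (nk 0 + 1) by unfold N2; omega]
    exact this
  have f2 : ∀ i < nk 0, σ (N2 k + i) = 1000 + i := by
    intro i hi
    have := blk_second (a := nk k + 1) (b := nk 0 + 1) (i := i) (by omega)
    rw [show N2 k = 1000 + (nk k + 1) by unfold N2; omega]
    exact this
  have e2 : (disc (nk k) (wpath (vk k)) 1000).image (Finset.image σ)
      = disc (nk k) (wpath (vk k)) (N2 0) := image_disc h00 f1 (hw _)
  have e3 : (disc (nk 0) (wpath (vk 0)) (N2 k)).image (Finset.image σ)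
      = disc (nk 0) (wpath (vk 0)) 1000 := image_disc h00 f2 (hw _)
  have e4 : (Both k).image (Finset.image σ)
      = Kk 0 ∪ disc (nk k) (wpath (vk k)) (N2 0) := by
    unfold Both
    rw [Finset.image_union, Finset.image_union, e1, e2, e3, Finset.union_right_comm]
    rfl
  have e5 : Finset.image σ (tau (nk k) 1000) = tau (nk k) (N2 0) := by
    have hn := nk_ge k
    unfold tau
    rw [Finset.image_insert, Finset.image_insert, Finset.image_singleton, h00,
      f1 (nk k - 1) (by omega)]
    have := f1 0 (by omega)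
    rw [add_zero, add_zero] at this
    rw [this]
  have hinj : Function.Injective (Finset.image σ) := Finset.image_injective σ.injective
  have e6 : ((Both k).erase (tau (nk k) 1000)).image (Finset.image σ)
      = (Kk 0 ∪ disc (nk k) (wpath (vk k)) (N2 0)).erase (tau (nk k) (N2 0)) := by
    rw [Finset.erase_eq, Finset.image_sdiff _ _ hinj, e4, Finset.image_singleton, e5,
      ← Finset.erase_eq]
  have r1 : HE ((Both k).erase (tau (nk k) 1000))
      ((Kk 0 ∪ disc (nk k) (wpath (vk k)) (N2 0)).erase (tau (nk k) (N2 0))) :=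
    hR _ _ (isComplex_erase (isComplex_Both k) (dim2_Both k) (card1 k)) ⟨σ, e6.symm⟩
  exact he_trans r1 (he_collapses hC
    (h0 (Kk 0) (nk k) (N2 0) (wpath (vk k)) (good2 h5 0 k)).2.2)

end Pool.Agent.Lib.MP_50ef00_gt.H75
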